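import Mathlib

/-!
# Spin Kostka polynomials are not always palindromic

`Q_ξ(x) = ∑_μ K⁻_{ξμ}(t) P_μ(x;t)` defines the spin Kostka polynomials.  We show that
`K⁻_{(3,2),(2,1,1,1)}(t)` takes the value `192` at `t = 2` and `33/4` at `t = 1/2`, so that
`t^m K⁻(1/t) = K⁻(t)` fails for every integer `m`.
-/

open Finset

namespace Pool.Agent.Results.MP_2c9e21_co.NotPalindromic

/-- The marked alphabet `1' < 1 < 2' < 2 < ... < N' < N`: the letter `(k, false)` is the primed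
letter `k'`, and `(k, true)` is the unprimed letter `k` (lexicographic order). -/
abbrev Letter (N : ℕ) : Type := Fin N ×ₗ Bool

/-- The number `k` (from `0` to `N - 1`) underlying the letters `k'` and `k`. -/
def Letter.idx {N : ℕ} (a : Letter N) : Fin N := (ofLex a).1

/-- The letter is primed. -/
def Letter.IsPrimed {N : ℕ} (a : Letter N) : Prop := (ofLex a).2 = false

/-- The letter is unprimed. -/
def Letter.IsUnprimed {N : ℕ} (a : Letter N) : Prop := (ofLex a).2 = true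

/-- The shifted diagram of `ξ`, with rows and columns numbered from `0`: the cells `(i, j)` with
`i < ℓ(ξ)` and `i ≤ j < ξ_i + i` (the bound `ξ.sum + ξ.length` on `j` is harmless). -/
def cells (ξ : List ℕ) : Finset (ℕ × ℕ) :=
  (range ξ.length ×ˢ range (ξ.sum + ξ.length)).filter fun c => c.1 ≤ c.2 ∧ c.2 < ξ.getD c.1 0 + c.1

/-- Marked shifted tableaux of shape `ξ` with letters `1', 1, ..., N', N`: weakly increasing in
rows and columns; a letter that occurs twice in a column is primed, and a letter that occurs twice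
in a row is unprimed. -/
structure IsMarked {N : ℕ} (ξ : List ℕ) (T : cells ξ → Letter N) : Prop where
  row : ∀ a b, a.1.1 = b.1.1 → a.1.2 ≤ b.1.2 → T a ≤ T b
  col : ∀ a b, a.1.2 = b.1.2 → a.1.1 ≤ b.1.1 → T a ≤ T b
  unprimed : ∀ a b, a ≠ b → a.1.2 = b.1.2 → T a = T b → (T a).IsPrimed
  primed : ∀ a b, a ≠ b → a.1.1 = b.1.1 → T a = T b → (T a).IsUnprimed

open Classical in
/-- Schur's `Q`-function `Q_ξ(x_1, ..., x_N)`: the sum of `x^T` over all marked shifted tableaux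
`T` of shape `ξ`. -/
noncomputable def schurQ {R : Type*} [CommSemiring R] (ξ : List ℕ) {N : ℕ} (x : Fin N → R) : R :=
  ∑ T : cells ξ → Letter N with IsMarked ξ T, ∏ c, x (T c).idx

/-- A strict partition: the list of its parts, positive and strictly decreasing. -/
def IsStrict (ξ : List ℕ) : Prop := ξ.Pairwise (· > ·) ∧ ∀ k ∈ ξ, 0 < k

/-- All `μ = (μ_1 ≥ ... ≥ μ_N ≥ 0)` with sum `n`: the partitions of `n` with at most `N` parts. -/
def partsLe (n N : ℕ) : Finset (Fin N → ℕ) :=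
  (Fintype.piFinset fun _ : Fin N => range (n + 1)).filter fun μ =>
    (∀ i j, i ≤ j → μ j ≤ μ i) ∧ ∑ i, μ i = n

/-- The list of the nonzero parts of `μ`. -/
def partList {N : ℕ} (μ : Fin N → ℕ) : List ℕ := (List.ofFn μ).filter fun k => k ≠ 0

/-- `v_μ(t) = ∏_k v_{m_k}(t)`, over the distinct values `k` of `μ_1, ..., μ_N` (zero included), with
`m_k` the multiplicity of `k` and `v_m(t) = ∏_{i < m} (1 + t + ... + t ^ i)`. -/
def vmu {F : Type*} [Field F] (t : F) {N : ℕ} (μ : Fin N → ℕ) : F :=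
  ∏ k ∈ univ.image μ, ∏ i ∈ range (univ.filter fun j => μ j = k).card, ∑ s ∈ range (i + 1), t ^ s

/-- The Hall-Littlewood polynomial
`P_μ(x_1, ..., x_N; t) = v_μ(t)⁻¹ ∑_w w(x^μ ∏_{i<j} (x_i - t x_j) / (x_i - x_j))`. -/
def hallP {F : Type*} [Field F] (t : F) {N : ℕ} (x : Fin N → F) (μ : Fin N → ℕ) : F :=
  (∑ w : Equiv.Perm (Fin N), (∏ i, x (w i) ^ μ i) *
    ∏ i, ∏ j, if i < j then (x (w i) - t * x (w j)) / (x (w i) - x (w j)) else 1) / vmu t μ

/-- `K` is the family of spin Kostka polynomials: for every strict partition `ξ`, the expansion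
`Q_ξ(x) = ∑_μ K⁻_{ξμ}(t) P_μ(x;t)` holds in every number `N` of variables, at all `x` with distinct
coordinates and all `t` that are not roots of unity (where the formula for `P_μ` makes sense). -/
def IsSpinKostka (K : List ℕ → List ℕ → Polynomial ℂ) : Prop :=
  ∀ ξ, IsStrict ξ → ∀ (N : ℕ) (x : Fin N → ℂ), Function.Injective x →
    ∀ t : ℂ, (∀ m : ℕ, 0 < m → t ^ m ≠ 1) →
      schurQ ξ x = ∑ μ ∈ partsLe ξ.sum N, (K ξ (partList μ)).eval t * hallP t x μ

/-- `t ^ m * p(1/t) = p(t)`, as functions of `t ≠ 0`. -/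
def PalindromicWith (p : Polynomial ℂ) (m : ℤ) : Prop :=
  ∀ t : ℂ, t ≠ 0 → t ^ m * p.eval t⁻¹ = p.eval t

/-! ### The shape `(3,2)` -/

def q00 : cells [3, 2] := ⟨(0, 0), by decide⟩
def q01 : cells [3, 2] := ⟨(0, 1), by decide⟩
def q02 : cells [3, 2] := ⟨(0, 2), by decide⟩
def q11 : cells [3, 2] := ⟨(1, 1), by decide⟩
def q12 : cells [3, 2] := ⟨(1, 2), by decide⟩

lemma univ_cells : (univ : Finset (cells [3, 2])) = {q00, q01, q02, q11, q12} := by decide

lemma forall_cells {p : cells [3, 2] → Prop} :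
    (∀ a, p a) ↔ p q00 ∧ p q01 ∧ p q02 ∧ p q11 ∧ p q12 := by
  constructor
  · intro h
    exact ⟨h _, h _, h _, h _, h _⟩
  · rintro ⟨h1, h2, h3, h4, h5⟩ a
    have ha : a ∈ (univ : Finset (cells [3, 2])) := mem_univ a
    rw [univ_cells] at ha
    simp only [mem_insert, mem_singleton] at ha
    rcases ha with rfl | rfl | rfl | rfl | rfl <;> assumption

def cnd {N : ℕ} (a b c d e : Letter N) : Bool :=
  (a ≤ b) && (b ≤ c) && (d ≤ e) && (b ≤ d) && (c ≤ e) && (a ≠ b || (ofLex a).2) &&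
    (b ≠ c || (ofLex b).2) && (d ≠ e || (ofLex d).2) && (b ≠ d || !(ofLex b).2) &&
    (c ≠ e || !(ofLex c).2)

lemma marked_iff {N : ℕ} (T : cells [3, 2] → Letter N) :
    IsMarked [3, 2] T ↔ cnd (T q00) (T q01) (T q02) (T q11) (T q12) = true := by
  constructor
  · intro h
    have r1 := h.row q00 q01 rfl (by decide)
    have r2 := h.row q01 q02 rfl (by decide)
    have r3 := h.row q11 q12 rfl (by decide)
    have c1 := h.col q01 q11 rfl (by decide)
    have c2 := h.col q02 q12 rfl (by decide)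
    have p1 := h.primed q00 q01 (by decide) rfl
    have p2 := h.primed q01 q02 (by decide) rfl
    have p3 := h.primed q11 q12 (by decide) rfl
    have u1 := h.unprimed q01 q11 (by decide) rfl
    have u2 := h.unprimed q02 q12 (by decide) rfl
    unfold cnd
    simp only [Bool.and_eq_true, decide_eq_true_eq, Bool.or_eq_true, Bool.not_eq_true', ne_eq]
    exact ⟨⟨⟨⟨⟨⟨⟨⟨⟨r1, r2⟩, r3⟩, c1⟩, c2⟩, not_or_of_imp p1⟩, not_or_of_imp p2⟩,
      not_or_of_imp p3⟩, not_or_of_imp u1⟩, not_or_of_imp u2⟩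
  · intro h
    unfold cnd at h
    simp only [Bool.and_eq_true, decide_eq_true_eq, Bool.or_eq_true, Bool.not_eq_true', ne_eq] at h
    obtain ⟨⟨⟨⟨⟨⟨⟨⟨⟨r1, r2⟩, r3⟩, c1⟩, c2⟩, p1⟩, p2⟩, p3⟩, u1⟩, u2⟩ := h
    have p1' := imp_iff_not_or.2 p1
    have p2' := imp_iff_not_or.2 p2
    have p3' := imp_iff_not_or.2 p3
    have u1' := imp_iff_not_or.2 u1
    have u2' := imp_iff_not_or.2 u2
    have r12 := r1.trans r2
    have p12 : T q00 = T q02 → (ofLex (T q00)).2 = true := by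
      intro h
      exact p1' (le_antisymm r1 (h ▸ r2))
    refine ⟨?_, ?_, ?_, ?_⟩
    · refine forall_cells.2 ⟨forall_cells.2 ⟨?_, ?_, ?_, ?_, ?_⟩,
        forall_cells.2 ⟨?_, ?_, ?_, ?_, ?_⟩, forall_cells.2 ⟨?_, ?_, ?_, ?_, ?_⟩,
        forall_cells.2 ⟨?_, ?_, ?_, ?_, ?_⟩, forall_cells.2 ⟨?_, ?_, ?_, ?_, ?_⟩⟩ <;>
      first
        | exact fun h _ => absurd h (by decide)
        | exact fun _ h => absurd h (by decide)
        | exact fun _ _ => le_rfl
        | exact fun _ _ => r1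
        | exact fun _ _ => r2
        | exact fun _ _ => r3
        | exact fun _ _ => r12
    · refine forall_cells.2 ⟨forall_cells.2 ⟨?_, ?_, ?_, ?_, ?_⟩,
        forall_cells.2 ⟨?_, ?_, ?_, ?_, ?_⟩, forall_cells.2 ⟨?_, ?_, ?_, ?_, ?_⟩,
        forall_cells.2 ⟨?_, ?_, ?_, ?_, ?_⟩, forall_cells.2 ⟨?_, ?_, ?_, ?_, ?_⟩⟩ <;>
      first
        | exact fun h _ => absurd h (by decide)
        | exact fun _ h => absurd h (by decide)
        | exact fun _ _ => le_rfl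
        | exact fun _ _ => c1
        | exact fun _ _ => c2
    · refine forall_cells.2 ⟨forall_cells.2 ⟨?_, ?_, ?_, ?_, ?_⟩,
        forall_cells.2 ⟨?_, ?_, ?_, ?_, ?_⟩, forall_cells.2 ⟨?_, ?_, ?_, ?_, ?_⟩,
        forall_cells.2 ⟨?_, ?_, ?_, ?_, ?_⟩, forall_cells.2 ⟨?_, ?_, ?_, ?_, ?_⟩⟩ <;>
      first
        | exact fun h => absurd rfl h
        | exact fun _ h => absurd h (by decide)
        | exact fun _ _ => u1'
        | exact fun _ _ => u2'
        | exact fun _ _ h => (show (ofLex (T q11)).2 = false from h ▸ u1' h.symm)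
        | exact fun _ _ h => (show (ofLex (T q12)).2 = false from h ▸ u2' h.symm)
    · refine forall_cells.2 ⟨forall_cells.2 ⟨?_, ?_, ?_, ?_, ?_⟩,
        forall_cells.2 ⟨?_, ?_, ?_, ?_, ?_⟩, forall_cells.2 ⟨?_, ?_, ?_, ?_, ?_⟩,
        forall_cells.2 ⟨?_, ?_, ?_, ?_, ?_⟩, forall_cells.2 ⟨?_, ?_, ?_, ?_, ?_⟩⟩ <;>
      first
        | exact fun h => absurd rfl h
        | exact fun _ h => absurd h (by decide)
        | exact fun _ _ => p1'
        | exact fun _ _ => p2'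
        | exact fun _ _ => p3'
        | exact fun _ _ => p12
        | exact fun _ _ h => h ▸ p1' h.symm
        | exact fun _ _ h => h ▸ p2' h.symm
        | exact fun _ _ h => h ▸ p3' h.symm
        | exact fun _ _ h => h ▸ p12 h.symm

/-- quintuples -/
def ofQ {L : Type*} (z : L × L × L × L × L) (c : cells [3, 2]) : L :=
  if c = q00 then z.1 else if c = q01 then z.2.1 else if c = q02 then z.2.2.1 else
    if c = q11 then z.2.2.2.1 else z.2.2.2.2

def eQ {L : Type*} : (cells [3, 2] → L) ≃ L × L × L × L × L where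
  toFun T := (T q00, T q01, T q02, T q11, T q12)
  invFun := ofQ
  left_inv T := by
    funext c
    revert c
    exact forall_cells.2 ⟨rfl, rfl, rfl, rfl, rfl⟩
  right_inv z := rfl

lemma schurQ_eq {R : Type*} [CommSemiring R] {N : ℕ} (x : Fin N → R) :
    schurQ [3, 2] x = ∑ a : Letter N, ∑ b : Letter N, ∑ c : Letter N, ∑ d : Letter N,
      ∑ e : Letter N, if cnd a b c d e then
        x a.idx * (x b.idx * (x c.idx * (x d.idx * x e.idx))) else 0 := by
  classical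
  unfold schurQ
  rw [sum_filter, ← Equiv.sum_comp (eQ (L := Letter N)).symm]
  rw [Fintype.sum_prod_type]
  apply sum_congr rfl; intro a _
  rw [Fintype.sum_prod_type]
  apply sum_congr rfl; intro b _
  rw [Fintype.sum_prod_type]
  apply sum_congr rfl; intro c _
  rw [Fintype.sum_prod_type]
  apply sum_congr rfl; intro d _
  apply sum_congr rfl; intro e _
  have h1 := marked_iff (eQ.symm (a, b, c, d, e))
  have h2 : ∏ q, x ((eQ.symm (a, b, c, d, e) : cells [3, 2] → Letter N) q).idx =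
      x a.idx * (x b.idx * (x c.idx * (x d.idx * x e.idx))) := by
    rw [univ_cells, prod_insert (by decide), prod_insert (by decide), prod_insert (by decide),
      prod_insert (by decide), prod_singleton]
    rfl
  rw [h2]
  exact if_congr h1 rfl rfl

/-! ### Change of scalars -/

lemma schurQ_map {R S : Type*} [CommSemiring R] [CommSemiring S] (φ : R →+* S) (ξ : List ℕ) {N : ℕ}
    (x : Fin N → R) : schurQ ξ (fun i => φ (x i)) = φ (schurQ ξ x) := by
  unfold schurQ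
  rw [map_sum]
  apply sum_congr rfl
  intro T _
  rw [map_prod]

lemma vmu_map {F E : Type*} [Field F] [Field E] (φ : F →+* E) (t : F) {N : ℕ} (μ : Fin N → ℕ) :
    vmu (φ t) μ = φ (vmu t μ) := by
  unfold vmu
  rw [map_prod]
  apply prod_congr rfl
  intro k _
  rw [map_prod]
  apply prod_congr rfl
  intro i _
  rw [map_sum]
  apply sum_congr rfl
  intro s _
  rw [map_pow]

lemma hallP_map {F E : Type*} [Field F] [Field E] (φ : F →+* E) (t : F) {N : ℕ} (x : Fin N → F)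
    (μ : Fin N → ℕ) : hallP (φ t) (fun i => φ (x i)) μ = φ (hallP t x μ) := by
  unfold hallP
  rw [map_div₀, vmu_map, map_sum]
  congr 1
  apply sum_congr rfl
  intro w _
  rw [map_mul, map_prod, map_prod]
  congr 1
  · apply prod_congr rfl
    intro i _
    rw [map_pow]
  · apply prod_congr rfl
    intro i _
    rw [map_prod]
    apply prod_congr rfl
    intro j _
    split_ifs
    · rw [map_div₀, map_sub, map_sub, map_mul]
    · rw [map_one]

/-- The expansion of `Q_{(3,2)}` at a point with natural number coordinates. -/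
lemma expand {K : List ℕ → List ℕ → Polynomial ℂ} (hK : IsSpinKostka K) {N : ℕ} (x : Fin N → ℕ)
    (hx : Function.Injective x) (t : ℚ) (ht : ∀ m : ℕ, 0 < m → t ^ m ≠ 1) :
    ((schurQ [3, 2] x : ℕ) : ℂ) =
      ∑ μ ∈ partsLe 5 N, (K [3, 2] (partList μ)).eval (t : ℂ) *
        ((hallP t (fun i => (x i : ℚ)) μ : ℚ) : ℂ) := by
  have h1 := hK [3, 2] ⟨by simp, by simp⟩ N (fun i => (x i : ℂ))
    (fun i j h => hx (Nat.cast_injective h)) (t : ℂ) (fun m hm h => ht m hm (by exact_mod_cast h))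
  have h2 : schurQ [3, 2] (fun i => (x i : ℂ)) = ((schurQ [3, 2] x : ℕ) : ℂ) :=
    schurQ_map (Nat.castRingHom ℂ) [3, 2] x
  rw [h2] at h1
  rw [h1]
  apply sum_congr rfl
  intro μ _
  congr 1
  have h3 := hallP_map (Rat.castHom ℂ) t (fun i => (x i : ℚ)) μ
  simp only [Rat.coe_castHom, Rat.cast_natCast] at h3
  exact h3

/-! ### Numerical data -/

lemma parts1 : partsLe 5 1 = {![5]} := by decide +kernel
lemma parts2 : partsLe 5 2 = {![5, 0], ![4, 1], ![3, 2]} := by decide +kernel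
lemma parts3 : partsLe 5 3 = {![5, 0, 0], ![4, 1, 0], ![3, 2, 0], ![3, 1, 1], ![2, 2, 1]} := by
  decide +kernel
lemma parts4 : partsLe 5 4 = {![5, 0, 0, 0], ![4, 1, 0, 0], ![3, 2, 0, 0], ![3, 1, 1, 0],
    ![2, 2, 1, 0], ![2, 1, 1, 1]} := by
  decide +kernel

lemma Q1 : schurQ [3, 2] (![1] : Fin 1 → ℕ) = 0 := by
  rw [schurQ_eq]; decide +kernel
lemma Q12 : schurQ [3, 2] (![1, 2] : Fin 2 → ℕ) = 48 := by
  rw [schurQ_eq]; decide +kernel
lemma Q13 : schurQ [3, 2] (![1, 3] : Fin 2 → ℕ) = 144 := by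
  rw [schurQ_eq]; decide +kernel
lemma Q124 : schurQ [3, 2] (![1, 2, 4] : Fin 3 → ℕ) = 5040 := by
  rw [schurQ_eq]; decide +kernel
lemma Q123 : schurQ [3, 2] (![1, 2, 3] : Fin 3 → ℕ) = 2640 := by
  rw [schurQ_eq]; decide +kernel
lemma Q1248 : schurQ [3, 2] (![1, 2, 4, 8] : Fin 4 → ℕ) = 256560 := by
  rw [schurQ_eq]; decide +kernel

lemma pos_pow_ne (t : ℚ) (ht : 1 < t) : ∀ m : ℕ, 0 < m → t ^ m ≠ 1 :=
  fun _ hm => (one_lt_pow₀ ht hm.ne').ne'

lemma pos_pow_ne' (t : ℚ) (h0 : 0 ≤ t) (h1 : t < 1) : ∀ m : ℕ, 0 < m → t ^ m ≠ 1 :=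
  fun _ hm => (pow_lt_one₀ h0 h1 hm.ne').ne

/-- The unknowns `K⁻_{(3,2),μ}(t)`. -/
noncomputable def kv (K : List ℕ → List ℕ → Polynomial ℂ) (t : ℚ) (μ : List ℕ) : ℂ :=
  (K [3, 2] μ).eval (t : ℂ)

/-- The value of `P_μ` at a point with natural number coordinates. -/
def pv (t : ℚ) {N : ℕ} (x : Fin N → ℕ) (μ : Fin N → ℕ) : ℚ := hallP t (fun i => (x i : ℚ)) μ

lemma eq1 {K : List ℕ → List ℕ → Polynomial ℂ} (hK : IsSpinKostka K) (t : ℚ)
    (ht : ∀ m : ℕ, 0 < m → t ^ m ≠ 1) (x : Fin 1 → ℕ) (hx : Function.Injective x) :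
    ((schurQ [3, 2] x : ℕ) : ℂ) = kv K t [5] * (pv t x ![5] : ℚ) := by
  rw [expand hK x hx t ht, parts1, sum_singleton]
  rfl

lemma eq2 {K : List ℕ → List ℕ → Polynomial ℂ} (hK : IsSpinKostka K) (t : ℚ)
    (ht : ∀ m : ℕ, 0 < m → t ^ m ≠ 1) (x : Fin 2 → ℕ) (hx : Function.Injective x) :
    ((schurQ [3, 2] x : ℕ) : ℂ) = kv K t [5] * (pv t x ![5, 0] : ℚ) +
      (kv K t [4, 1] * (pv t x ![4, 1] : ℚ) + kv K t [3, 2] * (pv t x ![3, 2] : ℚ)) := by
  rw [expand hK x hx t ht, parts2, sum_insert (by decide), sum_insert (by decide), sum_singleton]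
  rfl

lemma eq3 {K : List ℕ → List ℕ → Polynomial ℂ} (hK : IsSpinKostka K) (t : ℚ)
    (ht : ∀ m : ℕ, 0 < m → t ^ m ≠ 1) (x : Fin 3 → ℕ) (hx : Function.Injective x) :
    ((schurQ [3, 2] x : ℕ) : ℂ) = kv K t [5] * (pv t x ![5, 0, 0] : ℚ) +
      (kv K t [4, 1] * (pv t x ![4, 1, 0] : ℚ) + (kv K t [3, 2] * (pv t x ![3, 2, 0] : ℚ) +
      (kv K t [3, 1, 1] * (pv t x ![3, 1, 1] : ℚ) + kv K t [2, 2, 1] * (pv t x ![2, 2, 1] : ℚ))))
      := by
  rw [expand hK x hx t ht, parts3, sum_insert (by decide), sum_insert (by decide),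
    sum_insert (by decide), sum_insert (by decide), sum_singleton]
  rfl

lemma eq4 {K : List ℕ → List ℕ → Polynomial ℂ} (hK : IsSpinKostka K) (t : ℚ)
    (ht : ∀ m : ℕ, 0 < m → t ^ m ≠ 1) (x : Fin 4 → ℕ) (hx : Function.Injective x) :
    ((schurQ [3, 2] x : ℕ) : ℂ) = kv K t [5] * (pv t x ![5, 0, 0, 0] : ℚ) +
      (kv K t [4, 1] * (pv t x ![4, 1, 0, 0] : ℚ) + (kv K t [3, 2] * (pv t x ![3, 2, 0, 0] : ℚ) +
      (kv K t [3, 1, 1] * (pv t x ![3, 1, 1, 0] : ℚ) +
      (kv K t [2, 2, 1] * (pv t x ![2, 2, 1, 0] : ℚ) +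
      kv K t [2, 1, 1, 1] * (pv t x ![2, 1, 1, 1] : ℚ))))) := by
  rw [expand hK x hx t ht, parts4, sum_insert (by decide), sum_insert (by decide),
    sum_insert (by decide), sum_insert (by decide), sum_insert (by decide), sum_singleton]
  rfl

lemma e_two_1 {K : List ℕ → List ℕ → Polynomial ℂ} (hK : IsSpinKostka K) :
    (0 : ℂ) = kv K 2 [5] * 1 := by
  have h := eq1 hK 2 (pos_pow_ne 2 (by norm_num)) ![1] (by decide)
  have p5 : pv 2 ![1] ![5] = 1 := by decide +kernel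
  rw [Q1, p5] at h
  push_cast at h
  exact h

lemma e_two_12 {K : List ℕ → List ℕ → Polynomial ℂ} (hK : IsSpinKostka K) :
    (48 : ℂ) = kv K 2 [5] * 3 + (kv K 2 [4, 1] * 6 + kv K 2 [3, 2] * 12) := by
  have h := eq2 hK 2 (pos_pow_ne 2 (by norm_num)) ![1, 2] (by decide)
  have p5 : pv 2 ![1, 2] ![5, 0] = 3 := by decide +kernel
  have p41 : pv 2 ![1, 2] ![4, 1] = 6 := by decide +kernel
  have p32 : pv 2 ![1, 2] ![3, 2] = 12 := by decide +kernel
  rw [Q12, p5, p41, p32] at h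
  push_cast at h
  exact h

lemma e_two_13 {K : List ℕ → List ℕ → Polynomial ℂ} (hK : IsSpinKostka K) :
    (144 : ℂ) = kv K 2 [5] * 124 + (kv K 2 [4, 1] * 48 + kv K 2 [3, 2] * 36) := by
  have h := eq2 hK 2 (pos_pow_ne 2 (by norm_num)) ![1, 3] (by decide)
  have p5 : pv 2 ![1, 3] ![5, 0] = 124 := by decide +kernel
  have p41 : pv 2 ![1, 3] ![4, 1] = 48 := by decide +kernel
  have p32 : pv 2 ![1, 3] ![3, 2] = 36 := by decide +kernel
  rw [Q13, p5, p41, p32] at h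
  push_cast at h
  exact h

lemma e_two_124 {K : List ℕ → List ℕ → Polynomial ℂ} (hK : IsSpinKostka K) :
    (5040 : ℂ) = kv K 2 [5] * 7 + (kv K 2 [4, 1] * 42 + (kv K 2 [3, 2] * 84 + (kv K 2 [3, 1, 1] * 56 + kv K 2 [2, 2, 1] * 112))) := by
  have h := eq3 hK 2 (pos_pow_ne 2 (by norm_num)) ![1, 2, 4] (by decide)
  have p5 : pv 2 ![1, 2, 4] ![5, 0, 0] = 7 := by decide +kernel
  have p41 : pv 2 ![1, 2, 4] ![4, 1, 0] = 42 := by decide +kernel
  have p32 : pv 2 ![1, 2, 4] ![3, 2, 0] = 84 := by decide +kernel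
  have p311 : pv 2 ![1, 2, 4] ![3, 1, 1] = 56 := by decide +kernel
  have p221 : pv 2 ![1, 2, 4] ![2, 2, 1] = 112 := by decide +kernel
  rw [Q124, p5, p41, p32, p311, p221] at h
  push_cast at h
  exact h

lemma e_two_123 {K : List ℕ → List ℕ → Polynomial ℂ} (hK : IsSpinKostka K) :
    (2640 : ℂ) = kv K 2 [5] * (-114) + (kv K 2 [4, 1] * (-84) + (kv K 2 [3, 2] * 12 + (kv K 2 [3, 1, 1] * 18 + kv K 2 [2, 2, 1] * 66))) := by
  have h := eq3 hK 2 (pos_pow_ne 2 (by norm_num)) ![1, 2, 3] (by decide)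
  have p5 : pv 2 ![1, 2, 3] ![5, 0, 0] = -114 := by decide +kernel
  have p41 : pv 2 ![1, 2, 3] ![4, 1, 0] = -84 := by decide +kernel
  have p32 : pv 2 ![1, 2, 3] ![3, 2, 0] = 12 := by decide +kernel
  have p311 : pv 2 ![1, 2, 3] ![3, 1, 1] = 18 := by decide +kernel
  have p221 : pv 2 ![1, 2, 3] ![2, 2, 1] = 66 := by decide +kernel
  rw [Q123, p5, p41, p32, p311, p221] at h
  push_cast at h
  exact h

lemma e_two_1248 {K : List ℕ → List ℕ → Polynomial ℂ} (hK : IsSpinKostka K) :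
    (256560 : ℂ) = kv K 2 [5] * 15 + (kv K 2 [4, 1] * 210 + (kv K 2 [3, 2] * 420 + (kv K 2 [3, 1, 1] * 840 + (kv K 2 [2, 2, 1] * 1680 + kv K 2 [2, 1, 1, 1] * 960)))) := by
  have h := eq4 hK 2 (pos_pow_ne 2 (by norm_num)) ![1, 2, 4, 8] (by decide)
  have p5 : pv 2 ![1, 2, 4, 8] ![5, 0, 0, 0] = 15 := by decide +kernel
  have p41 : pv 2 ![1, 2, 4, 8] ![4, 1, 0, 0] = 210 := by decide +kernel
  have p32 : pv 2 ![1, 2, 4, 8] ![3, 2, 0, 0] = 420 := by decide +kernel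
  have p311 : pv 2 ![1, 2, 4, 8] ![3, 1, 1, 0] = 840 := by decide +kernel
  have p221 : pv 2 ![1, 2, 4, 8] ![2, 2, 1, 0] = 1680 := by decide +kernel
  have p2111 : pv 2 ![1, 2, 4, 8] ![2, 1, 1, 1] = 960 := by decide +kernel
  rw [Q1248, p5, p41, p32, p311, p221, p2111] at h
  push_cast at h
  exact h

lemma e_half_1 {K : List ℕ → List ℕ → Polynomial ℂ} (hK : IsSpinKostka K) :
    (0 : ℂ) = kv K (1 / 2) [5] * 1 := by
  have h := eq1 hK (1 / 2) (pos_pow_ne' (1 / 2) (by norm_num) (by norm_num)) ![1] (by decide)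
  have p5 : pv (1 / 2) ![1] ![5] = 1 := by decide +kernel
  rw [Q1, p5] at h
  push_cast at h
  exact h

lemma e_half_12 {K : List ℕ → List ℕ → Polynomial ℂ} (hK : IsSpinKostka K) :
    (48 : ℂ) = kv K (1 / 2) [5] * 48 + (kv K (1 / 2) [4, 1] * 24 + kv K (1 / 2) [3, 2] * 12) := by
  have h := eq2 hK (1 / 2) (pos_pow_ne' (1 / 2) (by norm_num) (by norm_num)) ![1, 2] (by decide)
  have p5 : pv (1 / 2) ![1, 2] ![5, 0] = 48 := by decide +kernel
  have p41 : pv (1 / 2) ![1, 2] ![4, 1] = 24 := by decide +kernel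
  have p32 : pv (1 / 2) ![1, 2] ![3, 2] = 12 := by decide +kernel
  rw [Q12, p5, p41, p32] at h
  push_cast at h
  exact h

lemma e_half_13 {K : List ℕ → List ℕ → Polynomial ℂ} (hK : IsSpinKostka K) :
    (144 : ℂ) = kv K (1 / 2) [5] * 304 + (kv K (1 / 2) [4, 1] * 102 + kv K (1 / 2) [3, 2] * 36) := by
  have h := eq2 hK (1 / 2) (pos_pow_ne' (1 / 2) (by norm_num) (by norm_num)) ![1, 3] (by decide)
  have p5 : pv (1 / 2) ![1, 3] ![5, 0] = 304 := by decide +kernel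
  have p41 : pv (1 / 2) ![1, 3] ![4, 1] = 102 := by decide +kernel
  have p32 : pv (1 / 2) ![1, 3] ![3, 2] = 36 := by decide +kernel
  rw [Q13, p5, p41, p32] at h
  push_cast at h
  exact h

lemma e_half_124 {K : List ℕ → List ℕ → Polynomial ℂ} (hK : IsSpinKostka K) :
    (5040 : ℂ) = kv K (1 / 2) [5] * 1792 + (kv K (1 / 2) [4, 1] * 1344 + (kv K (1 / 2) [3, 2] * 672 + (kv K (1 / 2) [3, 1, 1] * 224 + kv K (1 / 2) [2, 2, 1] * 112))) := by
  have h := eq3 hK (1 / 2) (pos_pow_ne' (1 / 2) (by norm_num) (by norm_num)) ![1, 2, 4] (by decide)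
  have p5 : pv (1 / 2) ![1, 2, 4] ![5, 0, 0] = 1792 := by decide +kernel
  have p41 : pv (1 / 2) ![1, 2, 4] ![4, 1, 0] = 1344 := by decide +kernel
  have p32 : pv (1 / 2) ![1, 2, 4] ![3, 2, 0] = 672 := by decide +kernel
  have p311 : pv (1 / 2) ![1, 2, 4] ![3, 1, 1] = 224 := by decide +kernel
  have p221 : pv (1 / 2) ![1, 2, 4] ![2, 2, 1] = 112 := by decide +kernel
  rw [Q124, p5, p41, p32, p311, p221] at h
  push_cast at h
  exact h

lemma e_half_123 {K : List ℕ → List ℕ → Polynomial ℂ} (hK : IsSpinKostka K) :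
    (2640 : ℂ) = kv K (1 / 2) [5] * (1167/2) + (kv K (1 / 2) [4, 1] * (1119/2) + (kv K (1 / 2) [3, 2] * 336 + (kv K (1 / 2) [3, 1, 1] * 117 + kv K (1 / 2) [2, 2, 1] * 66))) := by
  have h := eq3 hK (1 / 2) (pos_pow_ne' (1 / 2) (by norm_num) (by norm_num)) ![1, 2, 3] (by decide)
  have p5 : pv (1 / 2) ![1, 2, 3] ![5, 0, 0] = 1167/2 := by decide +kernel
  have p41 : pv (1 / 2) ![1, 2, 3] ![4, 1, 0] = 1119/2 := by decide +kernel
  have p32 : pv (1 / 2) ![1, 2, 3] ![3, 2, 0] = 336 := by decide +kernel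
  have p311 : pv (1 / 2) ![1, 2, 3] ![3, 1, 1] = 117 := by decide +kernel
  have p221 : pv (1 / 2) ![1, 2, 3] ![2, 2, 1] = 66 := by decide +kernel
  rw [Q123, p5, p41, p32, p311, p221] at h
  push_cast at h
  exact h

lemma e_half_1248 {K : List ℕ → List ℕ → Polynomial ℂ} (hK : IsSpinKostka K) :
    (256560 : ℂ) = kv K (1 / 2) [5] * 61440 + (kv K (1 / 2) [4, 1] * 53760 + (kv K (1 / 2) [3, 2] * 26880 + (kv K (1 / 2) [3, 1, 1] * 13440 + (kv K (1 / 2) [2, 2, 1] * 6720 + kv K (1 / 2) [2, 1, 1, 1] * 960)))) := by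
  have h := eq4 hK (1 / 2) (pos_pow_ne' (1 / 2) (by norm_num) (by norm_num)) ![1, 2, 4, 8] (by decide)
  have p5 : pv (1 / 2) ![1, 2, 4, 8] ![5, 0, 0, 0] = 61440 := by decide +kernel
  have p41 : pv (1 / 2) ![1, 2, 4, 8] ![4, 1, 0, 0] = 53760 := by decide +kernel
  have p32 : pv (1 / 2) ![1, 2, 4, 8] ![3, 2, 0, 0] = 26880 := by decide +kernel
  have p311 : pv (1 / 2) ![1, 2, 4, 8] ![3, 1, 1, 0] = 13440 := by decide +kernel
  have p221 : pv (1 / 2) ![1, 2, 4, 8] ![2, 2, 1, 0] = 6720 := by decide +kernel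
  have p2111 : pv (1 / 2) ![1, 2, 4, 8] ![2, 1, 1, 1] = 960 := by decide +kernel
  rw [Q1248, p5, p41, p32, p311, p221, p2111] at h
  push_cast at h
  exact h

/-- `K⁻_{(3,2),(2,1,1,1)}(2) = 192`. -/
lemma val_two {K : List ℕ → List ℕ → Polynomial ℂ} (hK : IsSpinKostka K) :
    kv K 2 [2, 1, 1, 1] = 192 := by
  have h1 := e_two_1 hK
  have h2 := e_two_12 hK
  have h3 := e_two_13 hK
  have h4 := e_two_124 hK
  have h5 := e_two_123 hK
  have h6 := e_two_1248 hK
  have k5 : kv K 2 [5] = 0 := by linear_combination -h1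
  rw [k5] at h2 h3 h4 h5 h6
  have k41 : kv K 2 [4, 1] = 0 := by linear_combination (1 / 10 : ℂ) * h2 - (1 / 30 : ℂ) * h3
  rw [k41] at h2 h4 h5 h6
  have k32 : kv K 2 [3, 2] = 4 := by linear_combination -(1 / 12 : ℂ) * h2
  rw [k32] at h4 h5 h6
  have k311 : kv K 2 [3, 1, 1] = 12 := by
    linear_combination -(11 / 280 : ℂ) * h4 + (1 / 15 : ℂ) * h5
  rw [k311] at h4 h6
  have k221 : kv K 2 [2, 2, 1] = 36 := by linear_combination -(1 / 112 : ℂ) * h4
  rw [k221] at h6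
  linear_combination -(1 / 960 : ℂ) * h6

/-- `K⁻_{(3,2),(2,1,1,1)}(1/2) = 33/4`. -/
lemma val_half {K : List ℕ → List ℕ → Polynomial ℂ} (hK : IsSpinKostka K) :
    kv K (1 / 2) [2, 1, 1, 1] = 33 / 4 := by
  have h1 := e_half_1 hK
  have h2 := e_half_12 hK
  have h3 := e_half_13 hK
  have h4 := e_half_124 hK
  have h5 := e_half_123 hK
  have h6 := e_half_1248 hK
  have k5 : kv K (1 / 2) [5] = 0 := by linear_combination -h1
  rw [k5] at h2 h3 h4 h5 h6
  have k41 : kv K (1 / 2) [4, 1] = 0 := by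
    linear_combination (1 / 10 : ℂ) * h2 - (1 / 30 : ℂ) * h3
  rw [k41] at h2 h4 h5 h6
  have k32 : kv K (1 / 2) [3, 2] = 4 := by linear_combination -(1 / 12 : ℂ) * h2
  rw [k32] at h4 h5 h6
  have k311 : kv K (1 / 2) [3, 1, 1] = 6 := by
    linear_combination -(11 / 280 : ℂ) * h4 + (1 / 15 : ℂ) * h5
  rw [k311] at h4 h6
  have k221 : kv K (1 / 2) [2, 2, 1] = 9 := by linear_combination -(1 / 112 : ℂ) * h4
  rw [k221] at h6
  linear_combination -(1 / 960 : ℂ) * h6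

/-- No power of two times `33/4` is `192`. -/
lemma no_power (m : ℤ) : ((2 : ℂ) ^ m) * (33 / 4) ≠ 192 := by
  intro h
  rcases m with n | n
  · have h1 : (((2 ^ n * 11 : ℕ)) : ℂ) = ((256 : ℕ) : ℂ) := by
      push_cast
      rw [Int.ofNat_eq_natCast, zpow_natCast] at h
      linear_combination (4 / 3 : ℂ) * h
    have h2 : 2 ^ n * 11 = 256 := by exact_mod_cast h1
    omega
  · have h1 : (((256 * 2 ^ (n + 1) : ℕ)) : ℂ) = ((11 : ℕ) : ℂ) := by
      push_cast
      rw [zpow_negSucc] at h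
      have h3 : ((2 : ℂ) ^ (n + 1)) ≠ 0 := pow_ne_zero _ two_ne_zero
      field_simp at h
      linear_combination -(1 / 3 : ℂ) * h
    have h2 : 256 * 2 ^ (n + 1) = 11 := by exact_mod_cast h1
    omega

/-- **The spin Kostka polynomials are not always palindromic.**  For every family `K` of spin Kostka
polynomials, `K⁻_{(3,2),(2,1,1,1)}` takes the values `192` at `2` and `33/4` at `1/2`; hence it is
not the case that `t ^ m * K⁻(1/t) = K⁻(t)`, for any integer `m`. -/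
theorem result (K : List ℕ → List ℕ → Polynomial ℂ) (hK : IsSpinKostka K) :
    (K [3, 2] [2, 1, 1, 1]).eval 2 = 192 ∧ (K [3, 2] [2, 1, 1, 1]).eval (1 / 2) = 33 / 4 ∧
      (∀ m : ℤ, ¬ PalindromicWith (K [3, 2] [2, 1, 1, 1]) m) ∧
      ¬ (∀ ξ μ : List ℕ, IsStrict ξ → μ.Pairwise (· ≥ ·) → (∀ k ∈ μ, 0 < k) → μ.sum = ξ.sum →
        ∃ m : ℤ, PalindromicWith (K ξ μ) m) := by
  have h2 : (K [3, 2] [2, 1, 1, 1]).eval 2 = 192 := by
    have h := val_two hK
    unfold kv at h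
    push_cast at h
    exact h
  have h3 : (K [3, 2] [2, 1, 1, 1]).eval (1 / 2) = 33 / 4 := by
    have h := val_half hK
    unfold kv at h
    push_cast at h
    exact h
  have h4 : ∀ m : ℤ, ¬ PalindromicWith (K [3, 2] [2, 1, 1, 1]) m := by
    intro m hm
    have h5 := hm 2 two_ne_zero
    rw [h2, show (2 : ℂ)⁻¹ = 1 / 2 by norm_num, h3] at h5
    exact no_power m h5
  refine ⟨h2, h3, h4, fun h => ?_⟩
  obtain ⟨m, hm⟩ := h [3, 2] [2, 1, 1, 1] ⟨by simp, by simp⟩ (by simp) (by simp) (by simp)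
  exact h4 m hm


end Pool.Agent.Results.MP_2c9e21_co.NotPalindromic
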